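import Pool.Agent.helper65.GD.SpecE

set_option autoImplicit false

namespace Pool.Agent.GD

open Finset Metric Filter Topology

theorem FNG_ser_const {a : ℕ → ℂ} {f : ℂ → ℂ} (c : ℂ) (h : Ser a f) :
    Ser (fun n => c * a n) (fun z => c * f z) := by
  intro z hz
  have h1 := (h z hz).mul_left c
  have h2 : (fun n : ℕ => (c * a n) * z ^ n) = fun n : ℕ => c * (a n * z ^ n) := by
    funext n
    ring
  show HasSum (fun n : ℕ => (c * a n) * z ^ n) (c * f z)
  rw [h2]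
  exact h1

theorem FNG_ser_congr {a : ℕ → ℂ} {f g : ℂ → ℂ} (h : Ser a f) (hfg : ∀ z ∈ ball (0 : ℂ) 1, f z = g z) :
    Ser a g := by
  intro z hz
  rw [← hfg z hz]
  exact h z hz

theorem FNG_ser_sum (s : Finset ℕ) (a : ℕ → ℕ → ℂ) (f : ℕ → ℂ → ℂ) (h : ∀ m ∈ s, Ser (a m) (f m)) :
    Ser (fun n => ∑ m ∈ s, a m n) (fun z => ∑ m ∈ s, f m z) := by
  intro z hz
  have h1 : HasSum (fun n : ℕ => ∑ m ∈ s, a m n * z ^ n) (∑ m ∈ s, f m z) :=
    hasSum_sum (fun m hm => h m hm z hz)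
  show HasSum (fun n : ℕ => (∑ m ∈ s, a m n) * z ^ n) (∑ m ∈ s, f m z)
  have h2 : (fun n : ℕ => (∑ m ∈ s, a m n) * z ^ n) = fun n : ℕ => ∑ m ∈ s, a m n * z ^ n := by
    funext n
    rw [Finset.sum_mul]
  rw [h2]
  exact h1

theorem FNG_eval (R : Polynomial ℂ) (p : ℕ) (hdeg : R.natDegree ≤ p) (hR0 : R.eval 0 = 0) (w : ℂ) :
    R.eval w = ∑ m ∈ Icc 1 p, R.coeff m * w ^ m := by
  have h0 : R.coeff 0 = 0 := by
    rw [Polynomial.coeff_zero_eq_eval_zero]
    exact hR0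
  rw [Polynomial.eval_eq_sum_range' (show R.natDegree < p + 1 by omega)]
  rw [Finset.sum_range_succ' _ p]
  rw [h0, zero_mul, add_zero]
  refine Finset.sum_bij (fun i _ => i + 1) ?_ ?_ ?_ ?_
  · intro i hi
    rw [mem_Icc]
    have := mem_range.mp hi
    omega
  · intro i _ j _ hij
    omega
  · intro m hm
    rw [mem_Icc] at hm
    exact ⟨m - 1, mem_range.mpr (by omega), by omega⟩
  · intro i _
    rfl

theorem FNG (hCO1 : CO1_stmt) (hCO2 : CO2_stmt) (hCO3 : CO3_stmt) (hCO4 : CO4_stmt) (hRGB : RGB_stmt) (hSTB : STB_stmt) (hCCV : CCV_stmt) (hCAR : CAR_stmt) (hSPQ : SPQ_stmt) (hPWC : PWC_stmt) : FNG_stmt := by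
  intro φ f Q γ R p hφ hfd hQd hQpos hdeg hR0 hEq n hn
  obtain ⟨q, hqd, hq0, hqre, hqφ⟩ := hSPQ φ γ hφ
  -- coeff q is Cara
  have hexp : Complex.exp (γ * Complex.I) ≠ 0 := Complex.exp_ne_zero _
  have hcara : Cara (N2b689f5b.coeff q) := by
    have hd1 : DifferentiableOn ℂ (fun z => Complex.exp (γ * Complex.I) * q z) (ball 0 1) := hqd.const_mul _
    obtain ⟨q1, hq1, _, hq1c⟩ := hCAR _ hd1 hqre
    have hs1 := hCO1 _ hd1
    have hs2 : Ser (fun n => Complex.exp (γ * Complex.I) * N2b689f5b.coeff q n)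
        (fun z => Complex.exp (γ * Complex.I) * q z) := FNG_ser_const _ (hCO1 q hqd)
    have h3 := hCO2 _ _ _ hs1 hs2
    have h4 : q1 = N2b689f5b.coeff q := by
      funext k
      have h5 := congrFun h3 k
      have h6 := hq1c k
      rw [h5] at h6
      simp only [hq0, mul_one] at h6
      exact (mul_left_cancel₀ hexp h6).symm
    rw [← h4]
    exact hq1
  have hcq0 : N2b689f5b.coeff q 0 = 1 := hcara.1
  have hRgs : Rgs (N2b689f5b.coeff q) := hRGB _ hcara
  have hPws := hPWC φ q hφ.analytic hφ.map_zero hφ.deriv_ne hqd hq0 hqφ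
  have hST := hSTB p (N2b689f5b.coeff q) _ hcq0 hRgs hPws
  obtain ⟨q', hq', hQ0, hq'c⟩ := hCAR Q hQd hQpos
  have hRgs' : Rgs q' := hRGB _ hq'
  -- the series of R ∘ φ
  have hserR : Ser (cmb p (fun m n => N2b689f5b.coeff (fun z => φ z ^ m) n / deriv φ 0 ^ m)
      (fun m => R.coeff m * deriv φ 0 ^ m)) (fun z => R.eval (φ z)) := by
    have h1 : ∀ m ∈ Icc 1 p, Ser (fun n => R.coeff m * N2b689f5b.coeff (fun z => φ z ^ m) n)
        (fun z => R.coeff m * φ z ^ m) := by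
      intro m _
      exact FNG_ser_const _ (hCO1 _ (hφ.analytic.pow m))
    have h2 := FNG_ser_sum (Icc 1 p) _ _ h1
    have h3 : (fun n => ∑ m ∈ Icc 1 p, R.coeff m * N2b689f5b.coeff (fun z => φ z ^ m) n) =
        cmb p (fun m n => N2b689f5b.coeff (fun z => φ z ^ m) n / deriv φ 0 ^ m)
          (fun m => R.coeff m * deriv φ 0 ^ m) := by
      funext k
      unfold cmb
      refine sum_congr rfl (fun m _ => ?_)
      have h4 : deriv φ 0 ^ m ≠ 0 := pow_ne_zero _ hφ.deriv_ne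
      field_simp
    rw [← h3]
    exact FNG_ser_congr h2 (fun z _ => (FNG_eval R p hdeg hR0 (φ z)).symm)
  have hserQ : Ser (N2b689f5b.coeff Q) Q := hCO1 Q hQd
  have hprod := hCO3 _ _ _ _ hserR hserQ
  have hserf := (hCO4 f _ (hCO1 f hfd)).2
  have hprod' : Ser (fun n => ∑ m ∈ range (n + 1),
      cmb p (fun m n => N2b689f5b.coeff (fun z => φ z ^ m) n / deriv φ 0 ^ m)
      (fun m => R.coeff m * deriv φ 0 ^ m) m * N2b689f5b.coeff Q (n - m)) (fun z => z * deriv f z) :=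
    FNG_ser_congr hprod (fun z hz => by rw [hEq z hz]; ring)
  have heq := hCO2 _ _ _ hserf hprod'
  have hb : ∀ n : ℕ, (n : ℂ) * N2b689f5b.coeff f n =
      cv q' (cmb p (fun m n => N2b689f5b.coeff (fun z => φ z ^ m) n / deriv φ 0 ^ m)
      (fun m => Q 0 * (R.coeff m * deriv φ 0 ^ m))) n := by
    intro k
    have h1 : (k : ℂ) * N2b689f5b.coeff f k = ∑ m ∈ range (k + 1),
      cmb p (fun m n => N2b689f5b.coeff (fun z => φ z ^ m) n / deriv φ 0 ^ m)
      (fun m => R.coeff m * deriv φ 0 ^ m) m * N2b689f5b.coeff Q (k - m) := congrFun heq k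
    rw [h1]
    unfold cv
    refine sum_congr rfl (fun r _ => ?_)
    rw [hq'c (k - r)]
    have h2 : cmb p (fun m n => N2b689f5b.coeff (fun z => φ z ^ m) n / deriv φ 0 ^ m)
        (fun m => Q 0 * (R.coeff m * deriv φ 0 ^ m)) r =
        Q 0 * cmb p (fun m n => N2b689f5b.coeff (fun z => φ z ^ m) n / deriv φ 0 ^ m)
        (fun m => R.coeff m * deriv φ 0 ^ m) r := by
      unfold cmb
      rw [mul_sum]
      refine sum_congr rfl (fun m _ => ?_)
      ring
    rw [h2]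
    ring
  have hfin := hCCV p q' _ hq'.1 hRgs' hPws.low hPws.diag hST _ (N2b689f5b.coeff f) hb n hn
  unfold N2b689f5b.goodmanBound
  unfold AA at hfin
  exact hfin

end Pool.Agent.GD
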